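import Pool.Agent.W2helper90.RT.Stm
import Pool.Agent.W2helper12.LT.Approx2
import Pool.Agent.Helper717.LT.P_split_complex
import Pool.Agent.Helper717.LT.P_pd_basic
import Pool.Agent.W2helper1.LT.HReal

/-!
# Project RT, piece SOB: passage from `C¹` functions with compact support to `H¹(ℝ^d; ℂ)`
-/

set_option autoImplicit false

open MeasureTheory Set Filter Topology

namespace Pool.Agent.W2helper17.RT

open LTd Pool.Agent.W2helper90.RT Pool.Agent.R282.KO Pool.Agent.W2helper1.LT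

section aux

variable {d : ℕ}

/-- the product with a bounded function -/
theorem memLp_sqrt_mul {V f : (Fin d → ℝ) → ℝ} (hV : Measurable V) {C : ℝ}
    (hC : ∀ x, V x ≤ C) (hf : MemLp f 2 volume) : MemLp (fun x => √(V x) * f x) 2 volume := by
  refine MemLp.of_le_mul (c := √C) hf
    (hV.sqrt.aestronglyMeasurable.mul hf.aestronglyMeasurable) (Eventually.of_forall fun x => ?_)
  rw [norm_mul, Real.norm_eq_abs, abs_of_nonneg (Real.sqrt_nonneg _)]
  exact mul_le_mul_of_nonneg_right (Real.sqrt_le_sqrt (hC x)) (norm_nonneg _)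

/-- `∫ V f²` -/
theorem integrable_V {V f : (Fin d → ℝ) → ℝ} (hV : Measurable V) (h0 : ∀ x, 0 ≤ V x) {C : ℝ}
    (hC : ∀ x, V x ≤ C) (hf : MemLp f 2 volume) : Integrable (fun x => V x * f x ^ 2) volume := by
  have h := (memLp_sqrt_mul hV hC hf).integrable_sq
  refine h.congr (Eventually.of_forall fun x => ?_)
  show (√(V x) * f x) ^ 2 = V x * f x ^ 2
  rw [mul_pow, Real.sq_sqrt (h0 x)]

/-- the potential energies converge -/
theorem tendsto_V {V f : (Fin d → ℝ) → ℝ} {F : ℕ → (Fin d → ℝ) → ℝ} (hV : Measurable V)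
    (h0 : ∀ x, 0 ≤ V x) {C : ℝ} (hC : ∀ x, V x ≤ C) (hF : ∀ j, MemLp (F j) 2 volume)
    (hf : MemLp f 2 volume) (h : Tendsto (fun j => ∫ x, (F j x - f x) ^ 2) atTop (𝓝 0)) :
    Tendsto (fun j => ∫ x, V x * F j x ^ 2) atTop (𝓝 (∫ x, V x * f x ^ 2)) := by
  have h1 := tendsto_sq_int (F := fun j x => √(V x) * F j x) (f := fun x => √(V x) * f x)
    (fun j => memLp_sqrt_mul hV hC (hF j)) (memLp_sqrt_mul hV hC hf) ?_
  · have e : ∀ f : (Fin d → ℝ) → ℝ, (fun x => (√(V x) * f x) ^ 2) = fun x => V x * f x ^ 2 := by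
      intro f
      funext x
      rw [mul_pow, Real.sq_sqrt (h0 x)]
    simp only [e] at h1
    exact h1
  · have h2 : Tendsto (fun j => C * ∫ x, (F j x - f x) ^ 2) atTop (𝓝 0) := by
      have := h.const_mul C
      rwa [mul_zero] at this
    refine squeeze_zero (fun j => integral_nonneg fun x => sq_nonneg _) (fun j => ?_) h2
    rw [← integral_const_mul]
    have hd : MemLp (fun x => F j x - f x) 2 volume := (hF j).sub hf
    have e : (fun x => (√(V x) * F j x - √(V x) * f x) ^ 2) = fun x => V x * (F j x - f x) ^ 2 := by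
      funext x
      rw [← mul_sub, mul_pow, Real.sq_sqrt (h0 x)]
    rw [e]
    refine integral_mono (integrable_V hV h0 hC hd) (hd.integrable_sq.const_mul C) fun x => ?_
    exact mul_le_mul_of_nonneg_right (hC x) (sq_nonneg _)

/-- real and imaginary parts -/
noncomputable def ri {N : ℕ} (u : Fin N → (Fin d → ℝ) → ℂ) : Fin (N + N) → (Fin d → ℝ) → ℝ :=
  Fin.append (fun n x => (u n x).re) (fun n x => (u n x).im)

/-- real and imaginary parts of the gradients -/
noncomputable def rg {N : ℕ} (g : Fin N → Fin d → (Fin d → ℝ) → ℂ) :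
    Fin (N + N) → Fin d → (Fin d → ℝ) → ℝ :=
  Fin.append (fun n i x => (g n i x).re) (fun n i x => (g n i x).im)

theorem ri_left {N : ℕ} (u : Fin N → (Fin d → ℝ) → ℂ) (n : Fin N) :
    ri u (Fin.castAdd N n) = fun x => (u n x).re := Fin.append_left _ _ _

theorem ri_right {N : ℕ} (u : Fin N → (Fin d → ℝ) → ℂ) (n : Fin N) :
    ri u (Fin.natAdd N n) = fun x => (u n x).im := Fin.append_right _ _ _

theorem rg_left {N : ℕ} (g : Fin N → Fin d → (Fin d → ℝ) → ℂ) (n : Fin N) :
    rg g (Fin.castAdd N n) = fun i x => (g n i x).re := Fin.append_left _ _ _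

theorem rg_right {N : ℕ} (g : Fin N → Fin d → (Fin d → ℝ) → ℂ) (n : Fin N) :
    rg g (Fin.natAdd N n) = fun i x => (g n i x).im := Fin.append_right _ _ _

theorem wgrad_ri {N : ℕ} {u : Fin N → (Fin d → ℝ) → ℂ} {g : Fin N → Fin d → (Fin d → ℝ) → ℂ}
    (h : ∀ n, WGradC (u n) (g n)) (a : Fin (N + N)) : WGrad (ri u a) (rg g a) := by
  refine Fin.addCases (fun n => ?_) (fun n => ?_) a
  · rw [ri_left, rg_left]
    exact (split_complex (h n)).1
  · rw [ri_right, rg_right]
    exact (split_complex (h n)).2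

/-- the family of the real and imaginary parts is suborthonormal -/
theorem gram_ri {N : ℕ} {u : Fin N → (Fin d → ℝ) → ℂ} (hu : ∀ n, MemLp (u n) 2 volume)
    (hG : SubGram u) (c : Fin (N + N) → ℝ) : ∫ x, (∑ a, c a * ri u a x) ^ 2 ≤ ∑ a, c a ^ 2 := by
  set a : Fin N → ℂ := fun n => (c (Fin.castAdd N n) : ℂ) - (c (Fin.natAdd N n) : ℂ) * Complex.I
    with ha
  have h1 : ∑ n, ‖a n‖ ^ 2 = ∑ a, c a ^ 2 := by
    rw [Fin.sum_univ_add, ← Finset.sum_add_distrib]
    refine Finset.sum_congr rfl fun n _ => ?_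
    rw [← Complex.normSq_eq_norm_sq, Complex.normSq_apply]
    simp [ha]
    ring
  have h2 : ∀ x, ∑ b, c b * ri u b x = (∑ n, a n * u n x).re := by
    intro x
    rw [Fin.sum_univ_add, ← Finset.sum_add_distrib, Complex.re_sum]
    refine Finset.sum_congr rfl fun n _ => ?_
    rw [ri_left, ri_right, Complex.mul_re]
    simp [ha]
  have hm : MemLp (fun x => ∑ n, a n * u n x) 2 volume :=
    memLp_finsetSum _ fun n _ => (hu n).const_mul (a n)
  calc ∫ x, (∑ b, c b * ri u b x) ^ 2 = ∫ x, (∑ n, a n * u n x).re ^ 2 := by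
        simp only [h2]
    _ ≤ ∫ x, ‖∑ n, a n * u n x‖ ^ 2 := by
        refine integral_mono hm.re.integrable_sq hm.norm.integrable_sq fun x => ?_
        have h3 := Complex.abs_re_le_norm (∑ n, a n * u n x)
        have h4 := pow_le_pow_left₀ (abs_nonneg _) h3 2
        rw [sq_abs] at h4
        exact h4
    _ ≤ ∑ n, ‖a n‖ ^ 2 := hG a
    _ = ∑ a, c a ^ 2 := h1

end aux

theorem t_SOB (h : S_CUT) : S_SOB := by
  intro k m hk N u g hu hG V hV hinv h0 hVC
  obtain ⟨C, hC⟩ := hVC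
  have hwg := wgrad_ri hu
  have hgram := gram_ri (fun n => (hu n).f2) hG
  obtain ⟨F, hF1, hF2, hF3, hF4, hF5, hF6⟩ := Pool.Agent.W2helper12.LT.approx2 (k + m) (N + N)
    (ri u) (rg g) hwg
  have hFm : ∀ j a, MemLp (F j a) 2 volume := fun j a =>
    (hF1 j a).continuous.memLp_of_hasCompactSupport (hF2 j a)
  have hpm : ∀ j i a, MemLp (pd i (F j a)) 2 volume := fun j i a =>
    (pd_basic (hF1 j a) (hF2 j a) i).1.memLp_of_hasCompactSupport (pd_basic (hF1 j a) (hF2 j a) i).2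
  have hj : ∀ j, ENNReal.ofReal (∑ a, ((∫ x, V x * F j a x ^ 2) -
      ∫ x, ∑ i, pd i (F j a) x ^ 2)) ≤ ENNReal.ofReal (Lcl (k + m)) *
      ∫⁻ x, ENNReal.ofReal (V x ^ (1 + ((k + m : ℕ) : ℝ) / 2)) := fun j =>
    h k m hk (N + N) (F j) (hF1 j) (hF2 j) (fun c => (hF3 j c).trans (hgram c)) V hV hinv h0
      ⟨C, hC⟩
  have hlim : Tendsto (fun j => ∑ a, ((∫ x, V x * F j a x ^ 2) -
      ∫ x, ∑ i, pd i (F j a) x ^ 2)) atTop (𝓝 (∑ a, ((∫ x, V x * ri u a x ^ 2) -
      ∑ i, ∫ x, rg g a i x ^ 2))) := by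
    refine tendsto_finsetSum _ fun a _ => Tendsto.sub
      (tendsto_V hV h0 hC (fun j => hFm j a) (hwg a).f2 (hF5 a)) ?_
    have e : ∀ j, ∫ x, ∑ i, pd i (F j a) x ^ 2 = ∑ i, ∫ x, pd i (F j a) x ^ 2 := fun j =>
      integral_finsetSum _ fun i _ => (hpm j i a).integrable_sq
    simp only [e]
    exact tendsto_finsetSum _ fun i _ => tendsto_sq_int (fun j => hpm j i a) ((hwg a).g2 i)
      (hF6 i a)
  have hfin : (∑ a, ((∫ x, V x * ri u a x ^ 2) - ∑ i, ∫ x, rg g a i x ^ 2)) =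
      (∫ x, V x * ∑ n, ‖u n x‖ ^ 2) - ∑ n, ∑ i, ∫ x, ‖g n i x‖ ^ 2 := by
    have hsq : ∀ z : ℂ, ‖z‖ ^ 2 = z.re ^ 2 + z.im ^ 2 := by
      intro z
      rw [← Complex.normSq_eq_norm_sq, Complex.normSq_apply]
      ring
    have hre : ∀ n, MemLp (fun x => (u n x).re) 2 volume := fun n => (hu n).f2.re
    have him : ∀ n, MemLp (fun x => (u n x).im) 2 volume := fun n => (hu n).f2.im
    have hgre : ∀ n i, MemLp (fun x => (g n i x).re) 2 volume := fun n i => ((hu n).g2 i).re
    have hgim : ∀ n i, MemLp (fun x => (g n i x).im) 2 volume := fun n i => ((hu n).g2 i).im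
    have e1 : ∫ x, V x * ∑ n, ‖u n x‖ ^ 2 =
        ∑ n, ((∫ x, V x * (u n x).re ^ 2) + ∫ x, V x * (u n x).im ^ 2) := by
      have e2 : (fun x => V x * ∑ n, ‖u n x‖ ^ 2) =
          fun x => ∑ n, (V x * (u n x).re ^ 2 + V x * (u n x).im ^ 2) := by
        funext x
        rw [Finset.mul_sum]
        refine Finset.sum_congr rfl fun n _ => ?_
        rw [hsq, mul_add]
      have hint : ∀ n, Integrable (fun x => V x * (u n x).re ^ 2 + V x * (u n x).im ^ 2) volume :=
        fun n => (integrable_V hV h0 hC (hre n)).add (integrable_V hV h0 hC (him n))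
      rw [e2, integral_finsetSum _ fun n _ => hint n]
      exact Finset.sum_congr rfl fun n _ => integral_add (integrable_V hV h0 hC (hre n))
        (integrable_V hV h0 hC (him n))
    have e3 : ∀ n i, ∫ x, ‖g n i x‖ ^ 2 = (∫ x, (g n i x).re ^ 2) + ∫ x, (g n i x).im ^ 2 := by
      intro n i
      simp only [hsq]
      exact integral_add (hgre n i).integrable_sq (hgim n i).integrable_sq
    rw [Fin.sum_univ_add, e1]
    simp only [ri_left, ri_right, rg_left, rg_right, e3, Finset.sum_add_distrib,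
      Finset.sum_sub_distrib]
    ring
  rw [← hfin]
  exact le_of_tendsto' ((ENNReal.continuous_ofReal.tendsto _).comp hlim) hj

end Pool.Agent.W2helper17.RT
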